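import Pool.Agent.Lib.MP_a60258_hol.H9.Tab
import Pool.Agent.Lib.MP_a60258_hol.H61.Gauss
import Pool.Agent.Lib.MP_a60258_hol.H19.Lim
import Pool.Agent.Lib.MP_a60258_hol.H84.CL
import Pool.Agent.Lib.MP_a60258_hol.H84.Leib
import Pool.Agent.Lib.MP_a60258_hol.H86.Iden
import Pool.Agent.Lib.MP_a60258_hol.H86.Ker

/-!
# Assembly
-/

open MeasureTheory ProbabilityTheory MvPolynomial Finset

namespace Pool.Agent.Hol.H9

theorem alg_holds : ALG := alg H84.cl H84.leib H84.fcd H86.ker H86.iden H86.kzero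

/-- the polynomials of the family -/
def Fam (p : ℕ) (P : A602.R) : Prop :=
  ∃ n : ℕ, 0 < n ∧ ∃ F : MvPolynomial (Fin n) ℂ, F.IsHomogeneous p ∧
    (∀ ω : ℕ → ℝ, eval ω P = (eval (fun j : Fin n => zet ω j) F).re) ∧
      (∃ S, A602.Cha S p P) ∧
      A602.E (P ^ 2) = 2 ^ p / 2 * nrm p F ∧
      A602.E (P ^ 3) = 0 ∧
      A602.E (P ^ 4) = 3 / 8 * 2 ^ (2 * p) * nrm (2 * p) (F ^ 2) ∧
      A602.E (P ^ 6) = 5 / 16 * 2 ^ (3 * p) * nrm (3 * p) (F ^ 3) ∧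
      (∀ j : Fin n, A602.E (pderiv (2 * (j : ℕ)) P ^ 2)
          = 2 ^ (p - 1) / 2 * nrm (p - 1) (pderiv j F) ∧
        A602.E (pderiv (2 * (j : ℕ) + 1) P ^ 2) = 2 ^ (p - 1) / 2 * nrm (p - 1) (pderiv j F)) ∧
      (∀ i : ℕ, 2 * n ≤ i → pderiv i P = 0)

lemma fam_k4 {p : ℕ} (hp : 2 ≤ p) {P : A602.R} (h : Fam p P) (i : ℕ) :
    6 * A602.E (pderiv i P ^ 2) ^ 2 ≤ k4 P := by
  obtain ⟨n, hn, F, hF, -, -, h2, -, h4, -, hd, ho⟩ := h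
  have hk : k4 P = 3 / 8 * (2 ^ p) ^ 2 * (nrm (2 * p) (F ^ 2) - 2 * nrm p F ^ 2) := by
    unfold k4
    rw [h2, h4, pow_mul']
    ring
  have key : ∀ j : Fin n, 6 * (2 ^ (p - 1) / 2 * nrm (p - 1) (pderiv j F)) ^ 2 ≤ k4 P := by
    intro j
    have h1 := (alg_holds (Fin n) p hp F hF).1 j
    rw [hk]
    obtain ⟨q, rfl⟩ : ∃ q, p = q + 1 := ⟨p - 1, by omega⟩
    rw [Nat.add_sub_cancel] at h1 ⊢
    have h3 : (0 : ℝ) < 2 ^ q := by positivity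
    have e : (2 : ℝ) ^ (q + 1) = 2 * 2 ^ q := by ring
    rw [e]
    calc 6 * (2 ^ q / 2 * nrm q (pderiv j F)) ^ 2
        = 3 / 2 * (2 ^ q) ^ 2 * nrm q (pderiv j F) ^ 2 := by ring
      _ ≤ 3 / 2 * (2 ^ q) ^ 2 * (nrm (2 * (q + 1)) (F ^ 2) - 2 * nrm (q + 1) F ^ 2) :=
          mul_le_mul_of_nonneg_left h1 (by positivity)
      _ = _ := by ring
  rcases lt_or_ge i (2 * n) with hi | hi
  · rcases Nat.even_or_odd i with ⟨j, hj⟩ | ⟨j, hj⟩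
    · have h5 := key ⟨j, by omega⟩
      rw [← (hd ⟨j, by omega⟩).1] at h5
      have e : 2 * ((⟨j, by omega⟩ : Fin n) : ℕ) = i := by simp; omega
      rwa [e] at h5
    · have h5 := key ⟨j, by omega⟩
      rw [← (hd ⟨j, by omega⟩).2] at h5
      have e : 2 * ((⟨j, by omega⟩ : Fin n) : ℕ) + 1 = i := by simp; omega
      rwa [e] at h5
  · rw [ho i hi]
    have h5 := key ⟨0, hn⟩
    refine le_trans ?_ h5
    have h6 : A602.E ((0 : A602.R) ^ 2) = 0 := by simp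
    rw [h6]
    have h7 := sq_nonneg (2 ^ (p - 1) / 2 * nrm (p - 1) (pderiv (⟨0, hn⟩ : Fin n) F))
    linarith

lemma fam_k6 {p : ℕ} (hp : 2 ≤ p) {P : A602.R} (h : Fam p P) :
    10 * k4 P ^ 2 ≤ 3 * (A602.k6 P * A602.E (P ^ 2)) := by
  obtain ⟨n, hn, F, hF, -, -, h2, h3, h4, h6, hd, ho⟩ := h
  have h1 := (alg_holds (Fin n) p hp F hF).2
  have hk : k4 P = 3 / 8 * (2 ^ p) ^ 2 * (nrm (2 * p) (F ^ 2) - 2 * nrm p F ^ 2) := by
    unfold k4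
    rw [h2, h4, pow_mul']
    ring
  have hk6 : A602.k6 P = 5 / 16 * (2 ^ p) ^ 3 * (nrm (3 * p) (F ^ 3)
      - 9 * nrm p F * nrm (2 * p) (F ^ 2) + 12 * nrm p F ^ 3) := by
    unfold A602.k6
    rw [h2, h3, h4, h6, pow_mul', pow_mul']
    ring
  rw [hk, hk6, h2]
  have h7 : (0 : ℝ) < 2 ^ p := by positivity
  calc 10 * (3 / 8 * (2 ^ p) ^ 2 * (nrm (2 * p) (F ^ 2) - 2 * nrm p F ^ 2)) ^ 2
      = 15 / 32 * (2 ^ p) ^ 4 * (3 * (nrm (2 * p) (F ^ 2) - 2 * nrm p F ^ 2) ^ 2) := by ring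
    _ ≤ 15 / 32 * (2 ^ p) ^ 4 * ((nrm (3 * p) (F ^ 3)
      - 9 * nrm p F * nrm (2 * p) (F ^ 2) + 12 * nrm p F ^ 3) * nrm p F) :=
        mul_le_mul_of_nonneg_left h1 (by positivity)
    _ = _ := by ring

/-- the approximants of the statement are in the family -/
lemma exists_fam {p : ℕ} (hp : 2 ≤ p) (s : Finset (ℕ →₀ ℕ)) (c : (ℕ →₀ ℕ) → ℂ)
    (hs : ∀ α ∈ s, (α.sum fun _ k => k) = p) :
    ∃ P, Fam p P ∧ ∀ ω : ℕ → ℝ, eval ω P = (∑ α ∈ s, c α * α.prod (fun j k =>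
      ((ω (2 * j) : ℂ) + (ω (2 * j + 1) : ℂ) * Complex.I) ^ k)).re := by
  obtain ⟨n, hn, hsn⟩ : ∃ n, 0 < n ∧ ∀ α ∈ s, α.support ⊆ range n := by
    refine ⟨(s.biUnion fun α => α.support).sup id + 1, by omega, fun α hα i hi => ?_⟩
    rw [mem_range]
    have : i ≤ (s.biUnion fun α => α.support).sup id :=
      le_sup (f := id) (mem_biUnion.mpr ⟨α, hα, hi⟩)
    omega
  set F : MvPolynomial (Fin n) ℂ := ∑ α ∈ s, C (c α) * ∏ j : Fin n, X j ^ α j with hFd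
  have hF : F.IsHomogeneous p := by
    refine IsHomogeneous.sum _ _ _ fun α hα => ?_
    have h1 : (∏ j : Fin n, (X j : MvPolynomial (Fin n) ℂ) ^ α j).IsHomogeneous
        (∑ j : Fin n, α j) :=
      IsHomogeneous.prod _ _ _ fun j _ => by
        simpa using (isHomogeneous_X ℂ j).pow (α j)
    have h2 : ∑ j : Fin n, α j = p := by
      rw [← hs α hα, Finsupp.sum_of_support_subset α (hsn α hα) _ (by simp),
        Finset.sum_range (fun i => α i)]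
    rw [h2] at h1
    simpa using (isHomogeneous_C _ (c α)).mul h1
  obtain ⟨P, hP⟩ := H61.gauss n p hp F hF
  refine ⟨P, ⟨n, hn, F, hF, hP⟩, fun ω => ?_⟩
  rw [hP.1 ω, hFd, map_sum]
  congr 1
  refine sum_congr rfl fun α hα => ?_
  rw [map_mul, eval_C, map_prod]
  congr 1
  rw [Finsupp.prod_of_support_subset α (hsn α hα) _ (by simp), Finset.prod_range]
  refine prod_congr rfl fun j _ => ?_
  rw [map_pow, eval_X]
  rfl

theorem main (p : ℕ) (hp : 2 ≤ p) (X : (ℕ → ℝ) → ℝ)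
    (hX : MemLp X 2 A602.γ)
    (happ : ∀ ε : ℝ, 0 < ε → ∃ (s : Finset (ℕ →₀ ℕ)) (c : (ℕ →₀ ℕ) → ℂ),
      (∀ α ∈ s, (α.sum fun _ k => k) = p) ∧
      ∫ ω, (X ω - (∑ α ∈ s, c α * α.prod (fun j k =>
        ((ω (2 * j) : ℂ) + (ω (2 * j + 1) : ℂ) * Complex.I) ^ k)).re) ^ 2 ∂A602.γ < ε)
    (hne : ¬ (∀ᵐ ω ∂A602.γ, X ω = 0)) :
    0 < A602.kap6 X ∧
    10 * ((∫ ω, X ω ^ 4 ∂A602.γ) - 3 * (∫ ω, X ω ^ 2 ∂A602.γ) ^ 2) ^ 2
      ≤ 3 * (A602.kap6 X * ∫ ω, X ω ^ 2 ∂A602.γ) := by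
  obtain ⟨h1, h2⟩ := H19.lim p (by omega) 6 (by norm_num) (Fam p)
    (fun P hP => by obtain ⟨n, hn, F, hF, -, h, -⟩ := hP; exact h)
    (fun P hP i => fam_k4 hp hP i) (fun P hP => fam_k6 hp hP) X hX
    (fun ε hε => by
      obtain ⟨s, c, hs, hsc⟩ := happ ε hε
      obtain ⟨P, hP, hPe⟩ := exists_fam hp s c hs
      refine ⟨P, hP, ?_⟩
      simp only [hPe]
      exact hsc) hne
  refine ⟨?_, h2⟩
  have h3 : 0 < A602.kap6 X * ∫ ω, X ω ^ 2 ∂A602.γ := by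
    have : 0 < ((∫ ω, X ω ^ 4 ∂A602.γ) - 3 * (∫ ω, X ω ^ 2 ∂A602.γ) ^ 2) ^ 2 := by positivity
    linarith
  have h4 : 0 ≤ ∫ ω, X ω ^ 2 ∂A602.γ := integral_nonneg fun ω => sq_nonneg _
  by_contra h5
  push Not at h5
  have h6 := mul_nonpos_of_nonpos_of_nonneg h5 h4
  linarith

end Pool.Agent.Hol.H9
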