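import Pool.Agent.Lib.MP_a60258_hol.H9.TabG

/-!
# The inequalities between the norms of `F`, `F²`, `F³`
-/

open MvPolynomial Finset

set_option linter.unusedSectionVars false
set_option linter.unusedSimpArgs false
set_option linter.unusedVariables false

namespace Pool.Agent.Hol.H9

variable {σ : Type} [Fintype σ] [DecidableEq σ]
variable {p L : ℕ} {f : (σ → ℕ) → ℂ}

/-- factorial, as a real number -/
def mr (m : σ → ℕ) : ℝ := ∏ s, ((m s).factorial : ℝ)

lemma mr_pos (m : σ → ℕ) : 0 < mr m := by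
  unfold mr
  exact prod_pos fun s _ => by exact_mod_cast Nat.factorial_pos _

lemma mf_eq (m : σ → ℕ) : mf m = ((mr m : ℝ) : ℂ) := by
  unfold mf mr
  push_cast
  rfl

/-- contraction of all but one or more legs -/
noncomputable def HH (L : ℕ) (f : (σ → ℕ) → ℂ) (a d : σ → ℕ) : ℂ :=
  ∑ b ∈ Bx σ L, f (a + b) * (starRingEnd ℂ) (f (b + d)) / mf b

lemma C2_sum (hf : ∀ m, dg m ≠ p → f m = 0) :
    C2 L f = ∑ a ∈ Bx σ L, ∑ d ∈ Bx σ L,
      (((if 0 < dg a ∧ dg a < p then 1 else 0) * ‖HH L f a d‖ ^ 2 / (mr a * mr d) : ℝ) : ℂ) := by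
  unfold C2
  rw [TS_congr (T' := fun x => if 0 < x 0 0 ∧ x 0 0 < p then 1 else 0) hf (by
    intro x hr hc
    have r0 := hr 0
    have r1 := hr 1
    have c0 := hc 0
    have c1 := hc 1
    simp only [Fin.sum_univ_two] at r0 r1 c0 c1
    by_cases h : 0 < x 0 0 ∧ x 0 0 < p
    · rw [if_pos h, if_pos (by omega)]
    · rw [if_neg h, if_neg (by omega)])]
  rw [TS_two]
  refine sum_congr rfl fun a _ => ?_
  have e1 : ∀ b ∈ Bx σ L, (∑ c ∈ Bx σ L, ∑ d ∈ Bx σ L,
      (if 0 < (![![dg a, dg b], ![dg c, dg d]] : Fin 2 → Fin 2 → ℕ) 0 0 ∧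
        (![![dg a, dg b], ![dg c, dg d]] : Fin 2 → Fin 2 → ℕ) 0 0 < p then (1 : ℂ) else 0)
        * (f (a + b) * f (c + d) * (starRingEnd ℂ) (f (a + c)) * (starRingEnd ℂ) (f (b + d))
          / (mf a * mf b * mf c * mf d)))
      = ∑ d ∈ Bx σ L, ∑ c ∈ Bx σ L, (if 0 < dg a ∧ dg a < p then (1 : ℂ) else 0)
        * (f (a + b) * f (c + d) * (starRingEnd ℂ) (f (a + c)) * (starRingEnd ℂ) (f (b + d))
          / (mf a * mf b * mf c * mf d)) := by
    intro b _
    rw [sum_comm]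
    rfl
  rw [sum_congr rfl e1, sum_comm]
  refine sum_congr rfl fun d _ => ?_
  have e2 : (starRingEnd ℂ) (HH L f a d)
      = ∑ c ∈ Bx σ L, f (c + d) * (starRingEnd ℂ) (f (a + c)) / mf c := by
    unfold HH
    rw [map_sum]
    refine sum_congr rfl fun c _ => ?_
    rw [map_div₀, map_mul, Complex.conj_conj, mf_real]
    ring
  have e3 : (((if 0 < dg a ∧ dg a < p then 1 else 0) * ‖HH L f a d‖ ^ 2 / (mr a * mr d) : ℝ) : ℂ)
      = (if 0 < dg a ∧ dg a < p then (1 : ℂ) else 0)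
        * (HH L f a d * (starRingEnd ℂ) (HH L f a d)) / (mf a * mf d) := by
    rw [← normSq_c, mf_eq, mf_eq]
    split_ifs <;> push_cast <;> ring
  rw [e3, e2]
  unfold HH
  rw [sum_mul_sum, mul_sum, sum_div]
  refine sum_congr rfl fun b _ => ?_
  rw [mul_sum, sum_div]
  refine sum_congr rfl fun c _ => ?_
  field_simp [mf_ne]

lemma dg_single (s : σ) : dg (Pi.single s 1 : σ → ℕ) = 1 := by
  unfold dg
  rw [sum_eq_single s (fun t _ h => Pi.single_eq_of_ne h _) (fun h => absurd (mem_univ _) h)]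
  simp

lemma mr_single (s : σ) : mr (Pi.single s 1 : σ → ℕ) = 1 := by
  unfold mr
  refine prod_eq_one fun t _ => ?_
  by_cases h : t = s
  · subst h; simp
  · rw [Pi.single_eq_of_ne h]; simp

lemma single_mem (hL : 1 ≤ L) (s : σ) : (Pi.single s 1 : σ → ℕ) ∈ Bx σ L := by
  simp only [Bx, Fintype.mem_piFinset, mem_range]
  intro t
  by_cases h : t = s
  · subst h; simp; omega
  · rw [Pi.single_eq_of_ne h]; omega

/-- lower bound of the connected part by an influence -/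
lemma C2_ge (hp : 2 ≤ p) (hL : 1 ≤ L) (hf : ∀ m, dg m ≠ p → f m = 0) (s : σ) :
    ‖HH L f (Pi.single s 1) (Pi.single s 1)‖ ^ 2 ≤ (C2 L f).re := by
  rw [C2_sum hf, Complex.re_sum]
  have h0 : ∀ a d : σ → ℕ,
      0 ≤ (if 0 < dg a ∧ dg a < p then (1 : ℝ) else 0) * ‖HH L f a d‖ ^ 2 / (mr a * mr d) := by
    intro a d
    have := mr_pos a
    have := mr_pos d
    split_ifs <;> positivity
  refine le_trans ?_ (single_le_sum (f := fun a => (∑ d ∈ Bx σ L,
    (((if 0 < dg a ∧ dg a < p then 1 else 0) * ‖HH L f a d‖ ^ 2 / (mr a * mr d) : ℝ) : ℂ)).re)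
    (fun a _ => ?_) (single_mem hL s))
  · rw [Complex.re_sum]
    refine le_trans ?_ (single_le_sum (f := fun d => ((((if 0 < dg (Pi.single s 1 : σ → ℕ) ∧
      dg (Pi.single s 1 : σ → ℕ) < p then 1 else 0) * ‖HH L f (Pi.single s 1) d‖ ^ 2
        / (mr (Pi.single s 1 : σ → ℕ) * mr d) : ℝ) : ℂ)).re)
      (fun d _ => ?_) (single_mem hL s))
    · rw [Complex.ofReal_re, dg_single, mr_single, if_pos (by omega)]
      simp
    · rw [Complex.ofReal_re]
      exact h0 _ _
  · rw [Complex.re_sum]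
    refine sum_nonneg fun d _ => ?_
    rw [Complex.ofReal_re]
    exact h0 _ _

theorem alg (hCL : CL) (hLEIB : LEIB) (hFCD : FCD) (hKER : KER) (hI : IDEN) (hKZ : KZERO) :
    ALG := by
  intro σ _ _ p hp F hF
  have hf : ∀ m : σ → ℕ, dg m ≠ p → fc F m = 0 := fun m hm => (hFCD σ F).2 p hF m hm
  set f := fc F with hfd
  set L := 3 * p with hLd
  have n1 : ((nrm p F : ℝ) : ℂ) = A1 L f := by
    have h := nrm_pow hCL hLEIB (k := 1) (p := p) (L := L) (by omega) F hf
    rw [one_mul, pow_one, TS_one] at h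
    exact h
  have n2 : ((nrm (2 * p) (F ^ 2) : ℝ) : ℂ) = TS 2 L f (fun _ => 1) :=
    nrm_pow hCL hLEIB (k := 2) (p := p) (L := L) (by omega) F hf
  have n3 : ((nrm (3 * p) (F ^ 3) : ℝ) : ℂ) = TS 3 L f (fun _ => 1) :=
    nrm_pow hCL hLEIB (k := 3) (p := p) (L := L) (by omega) F hf
  have hC2 : C2 L f = ((nrm (2 * p) (F ^ 2) - 2 * nrm p F ^ 2 : ℝ) : ℂ) := by
    rw [C2_eq (p := p) (by omega) hf, ← n1, ← n2]
    push_cast
    ring
  have hC2r : (C2 L f).re = nrm (2 * p) (F ^ 2) - 2 * nrm p F ^ 2 := by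
    rw [hC2, Complex.ofReal_re]
  refine ⟨fun s => ?_, ?_⟩
  · rw [← hC2r]
    refine le_trans (le_of_eq ?_) (C2_ge hp (by omega) hf s)
    have hf' : ∀ m : σ → ℕ, dg m ≠ p - 1 → fc (pderiv s F) m = 0 := by
      intro m hm
      rw [(hFCD σ F).1 s m]
      refine hf _ ?_
      rw [dg_add, dg_single]
      omega
    have h := nrm_pow hCL hLEIB (k := 1) (p := p - 1) (L := L) (by omega) (pderiv s F) hf'
    rw [one_mul, pow_one, TS_one] at h
    have h2 : HH L f (Pi.single s 1) (Pi.single s 1) = A1 L (fc (pderiv s F)) := by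
      unfold HH A1
      refine sum_congr rfl fun b _ => ?_
      rw [(hFCD σ F).1 s b, add_comm (Pi.single s 1) b]
    rw [h2, ← h, Complex.norm_real, Real.norm_eq_abs, sq_abs]
  · -- the third inequality
    have hconn := TS_conn (L := L) (f := f) (p := p) (by omega) hf
    rw [TS_row hI hf] at hconn
    have hsp := TS_split L f (fun c a b c' d => ((KK p c a b c' d : ℝ) : ℂ))
    have hKT : TS 3 L f (KT p) = ∑ k ∈ Bx σ L,
        QQ L (fun a b c d => ((KK p (dg k) a b c d : ℝ) : ℂ)) (lam L f k) / mf k := hsp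
    have hre : ∀ k : σ → ℕ, (QQ L (fun a b c d => ((KK p (dg k) a b c d : ℝ) : ℂ)) (lam L f k)
        / mf k).re = (QQ L (fun a b c d => ((KK p (dg k) a b c d : ℝ) : ℂ)) (lam L f k)).re
          / mr k := by
      intro k
      rw [mf_eq, Complex.div_ofReal_re]
    have hge : (QQ L (fun _ _ _ _ => 1) (l1 L f)).re ≤ (TS 3 L f (KT p)).re := by
      rw [hKT, Complex.re_sum]
      refine le_trans ?_ (single_le_sum (f := fun k =>
        (QQ L (fun a b c d => ((KK p (dg k) a b c d : ℝ) : ℂ)) (lam L f k) / mf k).re)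
        (fun k _ => ?_) (zero_mem_Bx L))
      · rw [hre, QQ_zero hKZ hf]
        simp [mr]
      · rw [hre]
        exact div_nonneg (QQ_nonneg hCL hKER (by omega) hf k) (mr_pos k).le
    have hκ : (TS 3 L f (KT p)).re * 3
        = nrm (3 * p) (F ^ 3) - 9 * nrm p F * nrm (2 * p) (F ^ 2) + 12 * nrm p F ^ 3 := by
      have h1 : 3 * TS 3 L f (KT p) = ((nrm (3 * p) (F ^ 3) - 9 * nrm p F * nrm (2 * p) (F ^ 2)
          + 12 * nrm p F ^ 3 : ℝ) : ℂ) := by
        rw [hconn, ← n1, ← n2, ← n3]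
        push_cast
        ring
      have h2 := congrArg Complex.re h1
      rw [Complex.ofReal_re] at h2
      rw [← h2]
      simp [mul_comm]
    -- Cauchy-Schwarz
    set g : (Fin p → σ) → ℂ := fun v => ∑ w : Fin p → Fin 2, l1 L f (cw v w 0) (cw v w 1) with hg
    have hpair := pair_eq hCL (p := p) (L := L) (f := f) (by omega) hf
    have hq := QQ_words hCL (n := p) (L := L) (by omega) (fun _ _ _ _ => 1) (l1 L f)
      (fun r1 r2 h => l1_zero hf h)
    have hq2 : ((∑ v, ‖g v‖ ^ 2 : ℝ) : ℂ) = (p.factorial : ℂ) * QQ L (fun _ _ _ _ => 1) (l1 L f) := by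
      rw [← hq]
      push_cast
      refine sum_congr rfl fun v _ => ?_
      have := normSq_c (g v)
      push_cast at this
      rw [this, hg]
      simp only []
      rw [map_sum, sum_mul_sum]
      refine sum_congr rfl fun w _ => sum_congr rfl fun w' _ => ?_
      ring
    have hfac : (0 : ℝ) < (p.factorial : ℝ) := by exact_mod_cast Nat.factorial_pos _
    have hq3 : ∑ v, ‖g v‖ ^ 2 = (p.factorial : ℝ) * (QQ L (fun _ _ _ _ => 1) (l1 L f)).re := by
      have h1 := congrArg Complex.re hq2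
      rw [Complex.ofReal_re, ← Complex.ofReal_natCast, Complex.re_ofReal_mul] at h1
      exact h1
    have hnp : ∑ v : Fin p → σ, ‖f (cnt v)‖ ^ 2 = (p.factorial : ℝ) * nrm p F := by
      unfold nrm
      rw [mul_div_cancel₀ _ hfac.ne']
    have hcs : ((p.factorial : ℝ) * |nrm (2 * p) (F ^ 2) - 2 * nrm p F ^ 2|) ^ 2
        ≤ (∑ v, ‖g v‖ ^ 2) * ∑ v : Fin p → σ, ‖f (cnt v)‖ ^ 2 := by
      have h1 : (p.factorial : ℝ) * |nrm (2 * p) (F ^ 2) - 2 * nrm p F ^ 2|
          = ‖∑ v : Fin p → σ, g v * (starRingEnd ℂ) (f (cnt v))‖ := by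
        rw [hpair, hC2, norm_mul, Complex.norm_natCast, Complex.norm_real, Real.norm_eq_abs]
      rw [h1]
      have h2 : ‖∑ v : Fin p → σ, g v * (starRingEnd ℂ) (f (cnt v))‖
          ≤ ∑ v : Fin p → σ, ‖g v‖ * ‖f (cnt v)‖ := by
        refine (norm_sum_le _ _).trans (le_of_eq ?_)
        refine sum_congr rfl fun v _ => ?_
        rw [norm_mul, RCLike.norm_conj]
      refine le_trans (pow_le_pow_left₀ (norm_nonneg _) h2 2) ?_
      exact sum_mul_sq_le_sq_mul_sq _ _ _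
    rw [hq3, hnp, mul_pow, sq_abs] at hcs
    have hn0 : 0 ≤ nrm p F := by
      unfold nrm
      positivity
    have h3 : (nrm (2 * p) (F ^ 2) - 2 * nrm p F ^ 2) ^ 2
        ≤ (QQ L (fun _ _ _ _ => 1) (l1 L f)).re * nrm p F := by
      have h4 : (p.factorial : ℝ) ^ 2 * (nrm (2 * p) (F ^ 2) - 2 * nrm p F ^ 2) ^ 2
          ≤ (p.factorial : ℝ) ^ 2 * ((QQ L (fun _ _ _ _ => 1) (l1 L f)).re * nrm p F) := by
        refine hcs.trans (le_of_eq ?_)
        ring
      exact le_of_mul_le_mul_left h4 (by positivity)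
    have h5 : (QQ L (fun _ _ _ _ => 1) (l1 L f)).re * nrm p F
        ≤ (TS 3 L f (KT p)).re * nrm p F := mul_le_mul_of_nonneg_right hge hn0
    rw [← hκ]
    linarith

end Pool.Agent.Hol.H9
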