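import Pool.Agent.Lib.MP_a60258_hol.Defs

/-!
# Sums over tables of multi-indices
-/

open MvPolynomial Finset

set_option linter.unusedSectionVars false

namespace Pool.Agent.Hol.H9

variable {σ : Type} [Fintype σ] [DecidableEq σ]

/-- the box of multi-indices with entries at most `L` -/
def Bx (σ : Type) [Fintype σ] [DecidableEq σ] (L : ℕ) : Finset (σ → ℕ) :=
  Fintype.piFinset (fun _ : σ => range (L + 1))

/-- degree -/
def dg (m : σ → ℕ) : ℕ := ∑ s, m s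

/-- factorial -/
def mf (m : σ → ℕ) : ℂ := ∏ s, ((m s).factorial : ℂ)

lemma mf_ne (m : σ → ℕ) : mf m ≠ 0 := by
  unfold mf
  exact prod_ne_zero_iff.mpr fun s _ => by exact_mod_cast Nat.factorial_ne_zero _

lemma dg_add (m m' : σ → ℕ) : dg (m + m') = dg m + dg m' := by
  simp [dg, sum_add_distrib]

lemma dg_zero : dg (0 : σ → ℕ) = 0 := by simp [dg]

lemma dg_sum {ι : Type} (s : Finset ι) (m : ι → σ → ℕ) : dg (∑ i ∈ s, m i) = ∑ i ∈ s, dg (m i) := by
  unfold dg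
  rw [sum_comm]
  exact sum_congr rfl fun x _ => by simp

lemma eq_zero_of_dg {m : σ → ℕ} (h : dg m = 0) : m = 0 := by
  funext s
  exact (sum_eq_zero_iff.mp h) s (mem_univ s)

/-- tables -/
def TB (σ : Type) [Fintype σ] [DecidableEq σ] (k L : ℕ) : Finset (Fin k → Fin k → σ → ℕ) :=
  Fintype.piFinset fun _ => Fintype.piFinset fun _ => Bx σ L

/-- the weight of a table -/
noncomputable def wt {k : ℕ} (f : (σ → ℕ) → ℂ) (β : Fin k → Fin k → σ → ℕ) : ℂ :=
  (∏ i, f (∑ j, β i j)) * (∏ j, (starRingEnd ℂ) (f (∑ i, β i j))) / ∏ i, ∏ j, mf (β i j)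

/-- the sum over tables -/
noncomputable def TS (k L : ℕ) (f : (σ → ℕ) → ℂ) (T : (Fin k → Fin k → ℕ) → ℂ) : ℂ :=
  ∑ β ∈ TB σ k L, T (fun i j => dg (β i j)) * wt f β

lemma TS_congr {k L p : ℕ} {f : (σ → ℕ) → ℂ} (hf : ∀ m, dg m ≠ p → f m = 0)
    {T T' : (Fin k → Fin k → ℕ) → ℂ}
    (h : ∀ x : Fin k → Fin k → ℕ, (∀ i, ∑ j, x i j = p) → (∀ j, ∑ i, x i j = p) → T x = T' x) :
    TS k L f T = TS k L f T' := by
  unfold TS
  refine sum_congr rfl fun β _ => ?_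
  by_cases h1 : ∀ i, ∑ j, dg (β i j) = p
  · by_cases h2 : ∀ j, ∑ i, dg (β i j) = p
    · rw [h _ h1 h2]
    · push Not at h2
      obtain ⟨j, hj⟩ := h2
      have : wt f β = 0 := by
        unfold wt
        rw [prod_eq_zero (mem_univ j) (by rw [hf _ (by rwa [dg_sum]), map_zero]) (i := j)
          (f := fun j => (starRingEnd ℂ) (f (∑ i, β i j)))]
        simp
      rw [this, mul_zero, mul_zero]
  · push Not at h1
    obtain ⟨i, hi⟩ := h1
    have : wt f β = 0 := by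
      unfold wt
      rw [prod_eq_zero (mem_univ i) (by rw [hf _ (by rwa [dg_sum])]) (i := i)
        (f := fun i => f (∑ j, β i j))]
      simp
    rw [this, mul_zero, mul_zero]

lemma TS_add {k L : ℕ} (f : (σ → ℕ) → ℂ) (T T' : (Fin k → Fin k → ℕ) → ℂ) :
    TS k L f (fun x => T x + T' x) = TS k L f T + TS k L f T' := by
  unfold TS
  rw [← sum_add_distrib]
  exact sum_congr rfl fun _ _ => add_mul _ _ _

lemma TS_smul {k L : ℕ} (f : (σ → ℕ) → ℂ) (c : ℂ) (T : (Fin k → Fin k → ℕ) → ℂ) :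
    TS k L f (fun x => c * T x) = c * TS k L f T := by
  unfold TS
  rw [mul_sum]
  exact sum_congr rfl fun _ _ => mul_assoc _ _ _

lemma TS_sum {k L : ℕ} {ι : Type} (s : Finset ι) (f : (σ → ℕ) → ℂ)
    (T : ι → (Fin k → Fin k → ℕ) → ℂ) :
    TS k L f (fun x => ∑ i ∈ s, T i x) = ∑ i ∈ s, TS k L f (T i) := by
  unfold TS
  rw [sum_comm]
  exact sum_congr rfl fun _ _ => sum_mul _ _ _

lemma TS_perm {k L : ℕ} (f : (σ → ℕ) → ℂ) (ρ τ : Equiv.Perm (Fin k))
    (T : (Fin k → Fin k → ℕ) → ℂ) :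
    TS k L f (fun x => T (fun i j => x (ρ i) (τ j))) = TS k L f T := by
  unfold TS
  refine sum_nbij' (fun β i j => β (ρ i) (τ j)) (fun β i j => β (ρ.symm i) (τ.symm j))
    ?_ ?_ ?_ ?_ ?_
  · intro β hβ
    simp only [TB, Fintype.mem_piFinset] at hβ ⊢
    exact fun i j => hβ _ _
  · intro β hβ
    simp only [TB, Fintype.mem_piFinset] at hβ ⊢
    exact fun i j => hβ _ _
  · intro β _
    funext i j
    simp
  · intro β _
    funext i j
    simp
  · intro β _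
    congr 1
    unfold wt
    have e1 : ∏ i, f (∑ j, β (ρ i) (τ j)) = ∏ i, f (∑ j, β i j) := by
      rw [← Equiv.prod_comp ρ (fun i => f (∑ j, β i j))]
      refine prod_congr rfl fun i _ => ?_
      rw [← Equiv.sum_comp τ (fun j => β (ρ i) j)]
    have e2 : ∏ j, (starRingEnd ℂ) (f (∑ i, β (ρ i) (τ j)))
        = ∏ j, (starRingEnd ℂ) (f (∑ i, β i j)) := by
      rw [← Equiv.prod_comp τ (fun j => (starRingEnd ℂ) (f (∑ i, β i j)))]
      refine prod_congr rfl fun j _ => ?_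
      rw [← Equiv.sum_comp ρ (fun i => β i (τ j))]
    have e3 : ∏ i, ∏ j, mf (β (ρ i) (τ j)) = ∏ i, ∏ j, mf (β i j) := by
      rw [← Equiv.prod_comp ρ (fun i => ∏ j, mf (β i j))]
      refine prod_congr rfl fun i _ => ?_
      rw [← Equiv.prod_comp τ (fun j => mf (β (ρ i) j))]
    rw [e1, e2, e3]

/-! ### Explicit forms -/

lemma TS_two (L : ℕ) (f : (σ → ℕ) → ℂ) (T : (Fin 2 → Fin 2 → ℕ) → ℂ) :
    TS 2 L f T = ∑ a ∈ Bx σ L, ∑ b ∈ Bx σ L, ∑ c ∈ Bx σ L, ∑ d ∈ Bx σ L,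
      T ![![dg a, dg b], ![dg c, dg d]] * (f (a + b) * f (c + d)
        * (starRingEnd ℂ) (f (a + c)) * (starRingEnd ℂ) (f (b + d)) / (mf a * mf b * mf c * mf d)) := by
  have h1 : TS 2 L f T = ∑ x ∈ Bx σ L ×ˢ Bx σ L ×ˢ Bx σ L ×ˢ Bx σ L,
      T ![![dg x.1, dg x.2.1], ![dg x.2.2.1, dg x.2.2.2]] * (f (x.1 + x.2.1)
        * f (x.2.2.1 + x.2.2.2)
        * (starRingEnd ℂ) (f (x.1 + x.2.2.1)) * (starRingEnd ℂ) (f (x.2.1 + x.2.2.2))
        / (mf x.1 * mf x.2.1 * mf x.2.2.1 * mf x.2.2.2)) := by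
    unfold TS
    refine sum_nbij' (fun β => (β 0 0, β 0 1, β 1 0, β 1 1))
      (fun x => ![![x.1, x.2.1], ![x.2.2.1, x.2.2.2]]) ?_ ?_ ?_ ?_ ?_
    · intro β hβ
      simp only [TB, Fintype.mem_piFinset] at hβ
      simp only [mem_product]
      exact ⟨hβ _ _, hβ _ _, hβ _ _, hβ _ _⟩
    · intro x hx
      simp only [mem_product] at hx
      simp only [TB, Fintype.mem_piFinset]
      intro i j
      fin_cases i <;> fin_cases j <;> simp [hx]
    · intro β _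
      funext i j
      fin_cases i <;> fin_cases j <;> rfl
    · intro x _
      rfl
    · intro β _
      congr 1
      · congr 1
        funext i j
        fin_cases i <;> fin_cases j <;> rfl
      · unfold wt
        simp only [Fin.sum_univ_two, Fin.prod_univ_two]
        ring
  rw [h1]
  simp only [sum_product]

lemma TS_three (L : ℕ) (f : (σ → ℕ) → ℂ) (T : (Fin 3 → Fin 3 → ℕ) → ℂ) :
    TS 3 L f T = ∑ k ∈ Bx σ L, ∑ a ∈ Bx σ L, ∑ b ∈ Bx σ L, ∑ c ∈ Bx σ L, ∑ d ∈ Bx σ L,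
      ∑ x ∈ Bx σ L, ∑ y ∈ Bx σ L, ∑ z ∈ Bx σ L, ∑ w ∈ Bx σ L,
      T ![![dg a, dg b, dg x], ![dg c, dg d, dg y], ![dg z, dg w, dg k]]
        * ((f (a + b + x) * f (c + d + y) * (starRingEnd ℂ) (f (x + y + k)) / (mf x * mf y))
          * ((starRingEnd ℂ) (f (a + c + z)) * (starRingEnd ℂ) (f (b + d + w)) * f (z + w + k)
            / (mf z * mf w)) / (mf k * (mf a * mf b * mf c * mf d))) := by
  have h1 : TS 3 L f T = ∑ q ∈ Bx σ L ×ˢ Bx σ L ×ˢ Bx σ L ×ˢ Bx σ L ×ˢ Bx σ L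
      ×ˢ Bx σ L ×ˢ Bx σ L ×ˢ Bx σ L ×ˢ Bx σ L,
      (fun k a b c d x y z w => T ![![dg a, dg b, dg x], ![dg c, dg d, dg y], ![dg z, dg w, dg k]]
        * ((f (a + b + x) * f (c + d + y) * (starRingEnd ℂ) (f (x + y + k)) / (mf x * mf y))
          * ((starRingEnd ℂ) (f (a + c + z)) * (starRingEnd ℂ) (f (b + d + w)) * f (z + w + k)
            / (mf z * mf w)) / (mf k * (mf a * mf b * mf c * mf d))))
        q.1 q.2.1 q.2.2.1 q.2.2.2.1 q.2.2.2.2.1 q.2.2.2.2.2.1 q.2.2.2.2.2.2.1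
        q.2.2.2.2.2.2.2.1 q.2.2.2.2.2.2.2.2 := by
    unfold TS
    refine sum_nbij' (fun β => (β 2 2, β 0 0, β 0 1, β 1 0, β 1 1, β 0 2, β 1 2, β 2 0, β 2 1))
      (fun q => ![![q.2.1, q.2.2.1, q.2.2.2.2.2.1], ![q.2.2.2.1, q.2.2.2.2.1, q.2.2.2.2.2.2.1],
        ![q.2.2.2.2.2.2.2.1, q.2.2.2.2.2.2.2.2, q.1]]) ?_ ?_ ?_ ?_ ?_
    · intro β hβ
      simp only [TB, Fintype.mem_piFinset] at hβ
      simp only [mem_product]
      exact ⟨hβ _ _, hβ _ _, hβ _ _, hβ _ _, hβ _ _, hβ _ _, hβ _ _, hβ _ _, hβ _ _⟩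
    · intro x hx
      simp only [mem_product] at hx
      simp only [TB, Fintype.mem_piFinset]
      intro i j
      fin_cases i <;> fin_cases j <;> simp [hx]
    · intro β _
      funext i j
      fin_cases i <;> fin_cases j <;> rfl
    · intro x _
      rfl
    · intro β _
      congr 1
      · congr 1
        funext i j
        fin_cases i <;> fin_cases j <;> rfl
      · unfold wt
        simp only [Fin.sum_univ_three, Fin.prod_univ_three]
        ring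
  rw [h1]
  simp only [sum_product]

end Pool.Agent.Hol.H9
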