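import Pool.Agent.Lib.MP_a60258_hol.H9.TabA

/-!
# From words to tables
-/

open MvPolynomial Finset

set_option linter.unusedSectionVars false

namespace Pool.Agent.Hol.H9

variable {σ : Type} [Fintype σ] [DecidableEq σ]

/-- the multi-index of the part of the word `v` with colour `i` -/
def cw {κ : Type} [DecidableEq κ] {N : ℕ} (v : Fin N → σ) (w : Fin N → κ) (i : κ) (s : σ) : ℕ :=
  #{n | v n = s ∧ w n = i}

lemma sum_cnt {τ : Type} [Fintype τ] [DecidableEq τ] {N : ℕ} (u : Fin N → τ) :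
    ∑ t, cnt u t = N := by
  unfold cnt
  have h := card_eq_sum_card_fiberwise (f := u) (s := univ) (t := univ) (fun _ _ => by simp)
  rw [card_univ, Fintype.card_fin] at h
  exact h.symm

lemma dg_cnt {N : ℕ} (v : Fin N → σ) : dg (cnt v) = N := sum_cnt v

/-- the words in three letters -/
def tri {κ : Type} {N : ℕ} (v : Fin N → σ) (w w' : Fin N → κ) : Fin N → σ × κ × κ :=
  fun n => (v n, w n, w' n)

lemma row_tri {κ : Type} [Fintype κ] [DecidableEq κ] {N : ℕ} (v : Fin N → σ) (w w' : Fin N → κ)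
    (i : κ) : (∑ j, fun s => cnt (tri v w w') (s, i, j)) = cw v w i := by
  funext s
  simp only [Finset.sum_apply, cnt, cw, tri, Prod.mk.injEq]
  rw [card_eq_sum_card_fiberwise (f := w') (s := univ.filter fun n => v n = s ∧ w n = i)
    (t := univ) (fun _ _ => by simp)]
  refine sum_congr rfl fun j _ => ?_
  rw [filter_filter]
  congr 1
  ext n
  simp [and_assoc]

lemma col_tri {κ : Type} [Fintype κ] [DecidableEq κ] {N : ℕ} (v : Fin N → σ) (w w' : Fin N → κ)
    (j : κ) : (∑ i, fun s => cnt (tri v w w') (s, i, j)) = cw v w' j := by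
  funext s
  simp only [Finset.sum_apply, cnt, cw, tri, Prod.mk.injEq]
  rw [card_eq_sum_card_fiberwise (f := w) (s := univ.filter fun n => v n = s ∧ w' n = j)
    (t := univ) (fun _ _ => by simp)]
  refine sum_congr rfl fun i _ => ?_
  rw [filter_filter]
  congr 1
  ext n
  simp only [mem_filter, mem_univ, true_and]
  tauto

lemma dg_tri {κ : Type} [Fintype κ] [DecidableEq κ] {N : ℕ} (v : Fin N → σ) (w w' : Fin N → κ)
    (i j : κ) : dg (fun s => cnt (tri v w w') (s, i, j)) = #{n | w n = i ∧ w' n = j} := by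
  unfold dg
  simp only [cnt, tri, Prod.mk.injEq]
  rw [card_eq_sum_card_fiberwise (f := v) (s := univ.filter fun n => w n = i ∧ w' n = j)
    (t := univ) (fun _ _ => by simp)]
  refine sum_congr rfl fun s _ => ?_
  rw [filter_filter]
  congr 1
  ext n
  simp only [mem_filter, mem_univ, true_and]
  tauto

/-- splitting a word in triples -/
def triE (σ κ : Type) (N : ℕ) : (Fin N → σ × κ × κ) ≃ (Fin N → σ) × (Fin N → κ) × (Fin N → κ) where
  toFun u := (fun n => (u n).1, fun n => (u n).2.1, fun n => (u n).2.2)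
  invFun x := fun n => (x.1 n, x.2.1 n, x.2.2 n)
  left_inv _ := rfl
  right_inv _ := rfl

/-- the sum over words in `σ × κ × κ`, as a sum over tables indexed by `κ × κ` -/
lemma words_tables (hCL : CL) {κ : Type} [Fintype κ] [DecidableEq κ] {N L : ℕ} (hL : N ≤ L)
    (Ψ : (κ → κ → σ → ℕ) → ℂ) (hΨ : ∀ β, ∑ i, ∑ j, dg (β i j) ≠ N → Ψ β = 0) :
    ∑ v : Fin N → σ, ∑ w : Fin N → κ, ∑ w' : Fin N → κ,
        Ψ (fun i j s => cnt (tri v w w') (s, i, j))
      = (N.factorial : ℂ) * ∑ β ∈ Fintype.piFinset (fun _ : κ => Fintype.piFinset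
          (fun _ : κ => Bx σ L)), Ψ β / ∏ i, ∏ j, mf (β i j) := by
  have h1 := hCL (σ × κ × κ) N L hL (fun m => Ψ (fun i j s => m (s, i, j))) (by
    intro m hm
    refine hΨ _ fun h => hm ?_
    rw [← h]
    simp only [dg, Fintype.sum_prod_type]
    rw [Finset.sum_comm]
    refine sum_congr rfl fun i _ => ?_
    rw [Finset.sum_comm])
  have h2 : ∑ v : Fin N → σ, ∑ w : Fin N → κ, ∑ w' : Fin N → κ,
      Ψ (fun i j s => cnt (tri v w w') (s, i, j))
      = ∑ u : Fin N → σ × κ × κ, Ψ (fun i j s => cnt u (s, i, j)) := by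
    rw [← Equiv.sum_comp (triE σ κ N).symm]
    rw [Fintype.sum_prod_type]
    refine sum_congr rfl fun v _ => ?_
    rw [Fintype.sum_prod_type]
    rfl
  rw [h2, h1]
  congr 1
  refine sum_nbij' (fun m i j s => m (s, i, j)) (fun β t => β t.2.1 t.2.2 t.1) ?_ ?_ ?_ ?_ ?_
  · intro m hm
    simp only [Bx, Fintype.mem_piFinset] at hm ⊢
    exact fun i j s => hm _
  · intro β hβ
    simp only [Bx, Fintype.mem_piFinset] at hβ ⊢
    exact fun t => hβ _ _ _
  · intro m _
    rfl
  · intro β _
    rfl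
  · intro m _
    congr 1
    simp only [mf, Fintype.prod_prod_type]
    rw [Finset.prod_comm]
    refine prod_congr rfl fun i _ => ?_
    rw [Finset.prod_comm]

end Pool.Agent.Hol.H9
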