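import Pool.Agent.Lib.MP_a60258_hol.H9.TabB

/-!
# Norms of powers as sums over tables
-/

open MvPolynomial Finset

set_option linter.unusedSectionVars false

namespace Pool.Agent.Hol.H9

variable {σ : Type} [Fintype σ] [DecidableEq σ]

lemma normSq_c (z : ℂ) : ((‖z‖ ^ 2 : ℝ) : ℂ) = z * (starRingEnd ℂ) z := by
  rw [Complex.mul_conj, Complex.normSq_eq_norm_sq]

/-- `‖F ^ k‖²` is the sum over all `k × k` tables -/
lemma nrm_pow (hCL : CL) (hLEIB : LEIB) {k p L : ℕ} (hL : k * p ≤ L) (F : MvPolynomial σ ℂ)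
    (hf : ∀ m : σ → ℕ, dg m ≠ p → fc F m = 0) :
    ((nrm (k * p) (F ^ k) : ℝ) : ℂ) = TS k L (fc F) (fun _ => 1) := by
  set f := fc F with hfd
  set Ψ : (Fin k → Fin k → σ → ℕ) → ℂ := fun β =>
    (∏ i, f (∑ j, β i j)) * (∏ j, (starRingEnd ℂ) (f (∑ i, β i j))) with hΨd
  have hΨ : ∀ β, ∑ i, ∑ j, dg (β i j) ≠ k * p → Ψ β = 0 := by
    intro β hβ
    by_contra h
    refine hβ ?_
    have h1 : ∀ i, ∑ j, dg (β i j) = p := by
      intro i
      by_contra h2
      refine h ?_
      rw [hΨd]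
      simp only
      rw [prod_eq_zero (mem_univ i) (by rw [hf _ (by rwa [dg_sum])]) (i := i)
        (f := fun i => f (∑ j, β i j)), zero_mul]
    rw [sum_congr rfl fun i _ => h1 i]
    simp
  have h1 := words_tables hCL hL Ψ hΨ
  have h2 : ∀ v : Fin (k * p) → σ, ((‖fc (F ^ k) (cnt v)‖ ^ 2 : ℝ) : ℂ)
      = ∑ w : Fin (k * p) → Fin k, ∑ w' : Fin (k * p) → Fin k,
        Ψ (fun i j s => cnt (tri v w w') (s, i, j)) := by
    intro v
    have e : F ^ k = ∏ _i : Fin k, F := by rw [prod_const, card_univ, Fintype.card_fin]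
    rw [normSq_c, e, hLEIB σ k (k * p) (fun _ => F) v, map_sum, sum_mul_sum]
    refine sum_congr rfl fun w _ => sum_congr rfl fun w' _ => ?_
    rw [map_prod, hΨd]
    simp only
    congr 1
    · refine prod_congr rfl fun i _ => ?_
      rw [row_tri]
      rfl
    · refine prod_congr rfl fun j _ => ?_
      rw [col_tri]
      rfl
  unfold nrm
  rw [Complex.ofReal_div, Complex.ofReal_sum, sum_congr rfl fun v _ => h2 v, h1]
  have h0 : ((k * p).factorial : ℂ) ≠ 0 := by exact_mod_cast Nat.factorial_ne_zero _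
  rw [Complex.ofReal_natCast, mul_comm, mul_div_assoc, div_self h0, mul_one]
  unfold TS TB
  refine sum_congr rfl fun β _ => ?_
  rw [one_mul]
  rfl

end Pool.Agent.Hol.H9
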