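import Pool.Agent.Lib.MP_a60258_hol.H9.TabC

/-!
# Disconnected tables
-/

open MvPolynomial Finset

set_option linter.unusedSectionVars false
set_option linter.unusedSimpArgs false
set_option linter.unusedVariables false

namespace Pool.Agent.Hol.H9

variable {σ : Type} [Fintype σ] [DecidableEq σ]

lemma zero_mem_Bx (L : ℕ) : (0 : σ → ℕ) ∈ Bx σ L := by
  simp [Bx, Fintype.mem_piFinset]

lemma mf_zero : mf (0 : σ → ℕ) = 1 := by simp [mf]

/-- the norm as a sum over multi-indices -/
noncomputable def A1 (L : ℕ) (f : (σ → ℕ) → ℂ) : ℂ :=
  ∑ m ∈ Bx σ L, f m * (starRingEnd ℂ) (f m) / mf m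

lemma TS_one (L : ℕ) (f : (σ → ℕ) → ℂ) : TS 1 L f (fun _ => 1) = A1 L f := by
  unfold TS A1
  refine sum_nbij' (fun β => β 0 0) (fun m _ _ => m) ?_ ?_ ?_ ?_ ?_
  · intro β hβ
    simp only [TB, Fintype.mem_piFinset] at hβ
    exact hβ _ _
  · intro m hm
    simp only [TB, Fintype.mem_piFinset]
    exact fun _ _ => hm
  · intro β _
    funext i j
    rw [Subsingleton.elim i 0, Subsingleton.elim j 0]
  · intro m _
    rfl
  · intro β _
    unfold wt
    simp

lemma TS_two_diag (L : ℕ) (f : (σ → ℕ) → ℂ) :
    TS 2 L f (fun x => if x 0 1 = 0 ∧ x 1 0 = 0 then 1 else 0) = A1 L f ^ 2 := by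
  rw [TS_two, pow_two]
  unfold A1
  rw [sum_mul_sum]
  refine sum_congr rfl fun a _ => ?_
  rw [sum_eq_single 0]
  · rw [sum_eq_single 0]
    · refine sum_congr rfl fun d _ => ?_
      simp only [Matrix.cons_val_zero, Matrix.cons_val_one, dg_zero, mf_zero]
      rw [if_pos ⟨trivial, trivial⟩]
      simp only [add_zero, zero_add]
      field_simp [mf_ne]
    · intro c _ hc
      refine sum_eq_zero fun d _ => ?_
      rw [if_neg, zero_mul]
      intro h
      exact hc (eq_zero_of_dg h.2)
    · intro h
      exact absurd (zero_mem_Bx L) h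
  · intro b _ hb
    refine sum_eq_zero fun c _ => sum_eq_zero fun d _ => ?_
    rw [if_neg, zero_mul]
    intro h
    exact hb (eq_zero_of_dg h.1)
  · intro h
    exact absurd (zero_mem_Bx L) h

lemma TS_three_block (L : ℕ) (f : (σ → ℕ) → ℂ) (T : ℕ → ℕ → ℕ → ℕ → ℂ) :
    TS 3 L f (fun x => if x 0 2 = 0 ∧ x 1 2 = 0 ∧ x 2 0 = 0 ∧ x 2 1 = 0 then
      T (x 0 0) (x 0 1) (x 1 0) (x 1 1) else 0)
      = A1 L f * TS 2 L f (fun x => T (x 0 0) (x 0 1) (x 1 0) (x 1 1)) := by
  rw [TS_three, TS_two]
  unfold A1
  rw [sum_mul]
  refine sum_congr rfl fun k _ => ?_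
  rw [mul_sum]
  refine sum_congr rfl fun a _ => ?_
  rw [mul_sum]
  refine sum_congr rfl fun b _ => ?_
  rw [mul_sum]
  refine sum_congr rfl fun c _ => ?_
  rw [mul_sum]
  refine sum_congr rfl fun d _ => ?_
  rw [sum_eq_single 0]
  · rw [sum_eq_single 0]
    · rw [sum_eq_single 0]
      · rw [sum_eq_single 0]
        · have hc : (![![dg a, dg b, dg (0 : σ → ℕ)], ![dg c, dg d, dg (0 : σ → ℕ)],
            ![dg (0 : σ → ℕ), dg (0 : σ → ℕ), dg k]] : Fin 3 → Fin 3 → ℕ) 0 2 = 0 ∧
            (![![dg a, dg b, dg (0 : σ → ℕ)], ![dg c, dg d, dg (0 : σ → ℕ)],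
            ![dg (0 : σ → ℕ), dg (0 : σ → ℕ), dg k]] : Fin 3 → Fin 3 → ℕ) 1 2 = 0 ∧
            (![![dg a, dg b, dg (0 : σ → ℕ)], ![dg c, dg d, dg (0 : σ → ℕ)],
            ![dg (0 : σ → ℕ), dg (0 : σ → ℕ), dg k]] : Fin 3 → Fin 3 → ℕ) 2 0 = 0 ∧
            (![![dg a, dg b, dg (0 : σ → ℕ)], ![dg c, dg d, dg (0 : σ → ℕ)],
            ![dg (0 : σ → ℕ), dg (0 : σ → ℕ), dg k]] : Fin 3 → Fin 3 → ℕ) 2 1 = 0 := by
            rw [dg_zero]; exact ⟨rfl, rfl, rfl, rfl⟩
          rw [if_pos hc]
          simp only [mf_zero, add_zero, zero_add, div_one, mul_one]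
          change T (dg a) (dg b) (dg c) (dg d) * _ = _ * (T (dg a) (dg b) (dg c) (dg d) * _)
          field_simp [mf_ne]
        · intro w _ hw
          rw [if_neg, zero_mul]
          exact fun h => hw (eq_zero_of_dg h.2.2.2)
        · intro h
          exact absurd (zero_mem_Bx L) h
      · intro z _ hz
        refine sum_eq_zero fun w _ => ?_
        rw [if_neg, zero_mul]
        exact fun h => hz (eq_zero_of_dg h.2.2.1)
      · intro h
        exact absurd (zero_mem_Bx L) h
    · intro y _ hy
      refine sum_eq_zero fun z _ => sum_eq_zero fun w _ => ?_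
      rw [if_neg, zero_mul]
      exact fun h => hy (eq_zero_of_dg h.2.1)
    · intro h
      exact absurd (zero_mem_Bx L) h
  · intro x _ hx
    refine sum_eq_zero fun y _ => sum_eq_zero fun z _ => sum_eq_zero fun w _ => ?_
    rw [if_neg, zero_mul]
    exact fun h => hx (eq_zero_of_dg h.1)
  · intro h
    exact absurd (zero_mem_Bx L) h

variable {p L : ℕ} {f : (σ → ℕ) → ℂ}

/-- a cell equal to `p` -/
lemma TS_cell (hf : ∀ m, dg m ≠ p → f m = 0) (i j : Fin 3) :
    TS 3 L f (fun x => if x i j = p then 1 else 0) = A1 L f * TS 2 L f (fun _ => 1) := by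
  rw [← TS_three_block L f (fun _ _ _ _ => 1)]
  have h1 := TS_perm (L := L) f (Equiv.swap i 2) (Equiv.swap j 2)
    (fun x : Fin 3 → Fin 3 → ℕ => if x 2 2 = p then (1 : ℂ) else 0)
  simp only [Equiv.swap_apply_right] at h1
  rw [h1]
  refine TS_congr hf fun x hr hc => ?_
  have h2 := hr 2
  have h3 := hc 2
  simp only [Fin.sum_univ_three] at h2 h3
  by_cases h : x 2 2 = p
  · rw [if_pos h, if_pos]
    omega
  · rw [if_neg h, if_neg]
    omega

lemma TS_diag3 (hp : 1 ≤ p) (hf : ∀ m, dg m ≠ p → f m = 0) :
    TS 3 L f (fun x => if x 0 0 = p ∧ x 1 1 = p ∧ x 2 2 = p then 1 else 0) = A1 L f ^ 3 := by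
  have h1 := TS_three_block L f (fun _ x01 x10 _ => if x01 = 0 ∧ x10 = 0 then 1 else 0)
  rw [TS_two_diag] at h1
  rw [show A1 L f ^ 3 = A1 L f * A1 L f ^ 2 by ring, ← h1]
  refine TS_congr hf fun x hr hc => ?_
  have r0 := hr 0
  have r1 := hr 1
  have r2 := hr 2
  have c0 := hc 0
  have c1 := hc 1
  have c2 := hc 2
  simp only [Fin.sum_univ_three] at r0 r1 r2 c0 c1 c2
  by_cases h : x 0 0 = p ∧ x 1 1 = p ∧ x 2 2 = p
  · rw [if_pos h, if_pos (by omega), if_pos (by omega)]
  · rw [if_neg h]
    split_ifs with h2 h3
    · exact absurd (by omega) h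
    · rfl
    · rfl

lemma TS_perm3 (hp : 1 ≤ p) (hf : ∀ m, dg m ≠ p → f m = 0) (τ : Equiv.Perm (Fin 3)) :
    TS 3 L f (fun x => if x 0 (τ 0) = p ∧ x 1 (τ 1) = p ∧ x 2 (τ 2) = p then 1 else 0)
      = A1 L f ^ 3 := by
  have h1 := TS_perm (L := L) f 1 τ
    (fun x : Fin 3 → Fin 3 → ℕ => if x 0 0 = p ∧ x 1 1 = p ∧ x 2 2 = p then (1 : ℂ) else 0)
  rw [TS_diag3 hp hf] at h1
  exact h1

/-- all cells are less than `p` -/
def conn (p : ℕ) (x : Fin 3 → Fin 3 → ℕ) : Prop := ∀ i j, x i j < p

instance (p : ℕ) (x : Fin 3 → Fin 3 → ℕ) : Decidable (conn p x) := by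
  unfold conn; infer_instance

/-- indicator -/
noncomputable def ind (P : Prop) [Decidable P] : ℂ := if P then 1 else 0

lemma conn_eq (hp : 1 ≤ p) (x : Fin 3 → Fin 3 → ℕ) (hr : ∀ i, ∑ j, x i j = p)
    (hc : ∀ j, ∑ i, x i j = p) :
    (if conn p x then (1 : ℂ) else 0) = 1 + (-1) * ((if x 0 0 = p then 1 else 0)
      + (if x 0 1 = p then 1 else 0) + (if x 0 2 = p then 1 else 0) + (if x 1 0 = p then 1 else 0)
      + (if x 1 1 = p then 1 else 0) + (if x 1 2 = p then 1 else 0) + (if x 2 0 = p then 1 else 0)
      + (if x 2 1 = p then 1 else 0) + (if x 2 2 = p then 1 else 0))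
      + 2 * ((if x 0 0 = p ∧ x 1 1 = p ∧ x 2 2 = p then 1 else 0)
        + (if x 0 0 = p ∧ x 1 2 = p ∧ x 2 1 = p then 1 else 0)
        + (if x 0 1 = p ∧ x 1 0 = p ∧ x 2 2 = p then 1 else 0)
        + (if x 0 1 = p ∧ x 1 2 = p ∧ x 2 0 = p then 1 else 0)
        + (if x 0 2 = p ∧ x 1 0 = p ∧ x 2 1 = p then 1 else 0)
        + (if x 0 2 = p ∧ x 1 1 = p ∧ x 2 0 = p then 1 else 0)) := by
  have r0 := hr 0
  have r1 := hr 1
  have r2 := hr 2
  have c0 := hc 0
  have c1 := hc 1
  have c2 := hc 2
  simp only [Fin.sum_univ_three] at r0 r1 r2 c0 c1 c2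
  have hcn : conn p x ↔ (x 0 0 < p ∧ x 0 1 < p ∧ x 0 2 < p) ∧ (x 1 0 < p ∧ x 1 1 < p ∧ x 1 2 < p)
      ∧ (x 2 0 < p ∧ x 2 1 < p ∧ x 2 2 < p) := by
    unfold conn
    simp [Fin.forall_fin_succ]
  generalize x 0 0 = x00 at *
  generalize x 0 1 = x01 at *
  generalize x 0 2 = x02 at *
  generalize x 1 0 = x10 at *
  generalize x 1 1 = x11 at *
  generalize x 1 2 = x12 at *
  generalize x 2 0 = x20 at *
  generalize x 2 1 = x21 at *
  generalize x 2 2 = x22 at *
  simp only [hcn]
  by_cases h00 : x00 = p
  · by_cases h11 : x11 = p
    · have h01 : ¬ x01 = p := by omega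
      have h02 : ¬ x02 = p := by omega
      have h10 : ¬ x10 = p := by omega
      have h12 : ¬ x12 = p := by omega
      have h20 : ¬ x20 = p := by omega
      have h21 : ¬ x21 = p := by omega
      have h22 : x22 = p := by omega
      rw [if_neg (by omega)]
      simp only [h00, h01, h02, h10, h11, h12, h20, h21, h22, if_true, if_false, and_true, and_false, true_and, false_and, and_self]
      norm_num
    · by_cases h12 : x12 = p
      · have h01 : ¬ x01 = p := by omega
        have h02 : ¬ x02 = p := by omega
        have h10 : ¬ x10 = p := by omega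
        have h20 : ¬ x20 = p := by omega
        have h21 : x21 = p := by omega
        have h22 : ¬ x22 = p := by omega
        rw [if_neg (by omega)]
        simp only [h00, h01, h02, h10, h11, h12, h20, h21, h22, if_true, if_false, and_true, and_false, true_and, false_and, and_self]
        norm_num
      · have h01 : ¬ x01 = p := by omega
        have h02 : ¬ x02 = p := by omega
        have h10 : ¬ x10 = p := by omega
        have h20 : ¬ x20 = p := by omega
        have h21 : ¬ x21 = p := by omega
        have h22 : ¬ x22 = p := by omega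
        rw [if_neg (by omega)]
        simp only [h00, h01, h02, h10, h11, h12, h20, h21, h22, if_true, if_false, and_true, and_false, true_and, false_and, and_self]
        norm_num
  · by_cases h01 : x01 = p
    · by_cases h10 : x10 = p
      · have h02 : ¬ x02 = p := by omega
        have h11 : ¬ x11 = p := by omega
        have h12 : ¬ x12 = p := by omega
        have h20 : ¬ x20 = p := by omega
        have h21 : ¬ x21 = p := by omega
        have h22 : x22 = p := by omega
        rw [if_neg (by omega)]
        simp only [h00, h01, h02, h10, h11, h12, h20, h21, h22, if_true, if_false, and_true, and_false, true_and, false_and, and_self]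
        norm_num
      · by_cases h12 : x12 = p
        · have h02 : ¬ x02 = p := by omega
          have h11 : ¬ x11 = p := by omega
          have h20 : x20 = p := by omega
          have h21 : ¬ x21 = p := by omega
          have h22 : ¬ x22 = p := by omega
          rw [if_neg (by omega)]
          simp only [h00, h01, h02, h10, h11, h12, h20, h21, h22, if_true, if_false, and_true, and_false, true_and, false_and, and_self]
          norm_num
        · have h02 : ¬ x02 = p := by omega
          have h11 : ¬ x11 = p := by omega
          have h20 : ¬ x20 = p := by omega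
          have h21 : ¬ x21 = p := by omega
          have h22 : ¬ x22 = p := by omega
          rw [if_neg (by omega)]
          simp only [h00, h01, h02, h10, h11, h12, h20, h21, h22, if_true, if_false, and_true, and_false, true_and, false_and, and_self]
          norm_num
    · by_cases h02 : x02 = p
      · by_cases h10 : x10 = p
        · have h11 : ¬ x11 = p := by omega
          have h12 : ¬ x12 = p := by omega
          have h20 : ¬ x20 = p := by omega
          have h21 : x21 = p := by omega
          have h22 : ¬ x22 = p := by omega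
          rw [if_neg (by omega)]
          simp only [h00, h01, h02, h10, h11, h12, h20, h21, h22, if_true, if_false, and_true, and_false, true_and, false_and, and_self]
          norm_num
        · by_cases h11 : x11 = p
          · have h12 : ¬ x12 = p := by omega
            have h20 : x20 = p := by omega
            have h21 : ¬ x21 = p := by omega
            have h22 : ¬ x22 = p := by omega
            rw [if_neg (by omega)]
            simp only [h00, h01, h02, h10, h11, h12, h20, h21, h22, if_true, if_false, and_true, and_false, true_and, false_and, and_self]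
            norm_num
          · have h12 : ¬ x12 = p := by omega
            have h20 : ¬ x20 = p := by omega
            have h21 : ¬ x21 = p := by omega
            have h22 : ¬ x22 = p := by omega
            rw [if_neg (by omega)]
            simp only [h00, h01, h02, h10, h11, h12, h20, h21, h22, if_true, if_false, and_true, and_false, true_and, false_and, and_self]
            norm_num
      · by_cases h10 : x10 = p
        · have h11 : ¬ x11 = p := by omega
          have h12 : ¬ x12 = p := by omega
          have h20 : ¬ x20 = p := by omega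
          have h21 : ¬ x21 = p := by omega
          have h22 : ¬ x22 = p := by omega
          rw [if_neg (by omega)]
          simp only [h00, h01, h02, h10, h11, h12, h20, h21, h22, if_true, if_false, and_true, and_false, true_and, false_and, and_self]
          norm_num
        · by_cases h11 : x11 = p
          · have h12 : ¬ x12 = p := by omega
            have h20 : ¬ x20 = p := by omega
            have h21 : ¬ x21 = p := by omega
            have h22 : ¬ x22 = p := by omega
            rw [if_neg (by omega)]
            simp only [h00, h01, h02, h10, h11, h12, h20, h21, h22, if_true, if_false, and_true, and_false, true_and, false_and, and_self]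
            norm_num
          · by_cases h12 : x12 = p
            · have h20 : ¬ x20 = p := by omega
              have h21 : ¬ x21 = p := by omega
              have h22 : ¬ x22 = p := by omega
              rw [if_neg (by omega)]
              simp only [h00, h01, h02, h10, h11, h12, h20, h21, h22, if_true, if_false, and_true, and_false, true_and, false_and, and_self]
              norm_num
            · by_cases h20 : x20 = p
              · have h21 : ¬ x21 = p := by omega
                have h22 : ¬ x22 = p := by omega
                rw [if_neg (by omega)]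
                simp only [h00, h01, h02, h10, h11, h12, h20, h21, h22, if_true, if_false, and_true, and_false, true_and, false_and, and_self]
                norm_num
              · by_cases h21 : x21 = p
                · have h22 : ¬ x22 = p := by omega
                  rw [if_neg (by omega)]
                  simp only [h00, h01, h02, h10, h11, h12, h20, h21, h22, if_true, if_false, and_true, and_false, true_and, false_and, and_self]
                  norm_num
                · by_cases h22 : x22 = p
                  · rw [if_neg (by omega)]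
                    simp only [h00, h01, h02, h10, h11, h12, h20, h21, h22, if_true, if_false, and_true, and_false, true_and, false_and, and_self]
                    norm_num
                  · rw [if_pos (by omega)]
                    simp only [h00, h01, h02, h10, h11, h12, h20, h21, h22, if_true, if_false, and_true, and_false, true_and, false_and, and_self]
                    norm_num

end Pool.Agent.Hol.H9
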