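import Pool.Agent.Lib.MP_a60258_hol.H9.TabD

/-!
# Connected tables and the row rule
-/

open MvPolynomial Finset

set_option linter.unusedSectionVars false
set_option linter.unusedSimpArgs false
set_option linter.unusedVariables false

namespace Pool.Agent.Hol.H9

variable {σ : Type} [Fintype σ] [DecidableEq σ]
variable {p L : ℕ} {f : (σ → ℕ) → ℂ}

lemma TS_conn (hp : 1 ≤ p) (hf : ∀ m, dg m ≠ p → f m = 0) :
    TS 3 L f (fun x => if conn p x then 1 else 0)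
      = TS 3 L f (fun _ => 1) - 9 * A1 L f * TS 2 L f (fun _ => 1) + 12 * A1 L f ^ 3 := by
  rw [TS_congr hf (fun x hr hc => conn_eq hp x hr hc)]
  have q1 := TS_diag3 (L := L) hp hf
  have q2 := TS_perm3 (L := L) hp hf (Equiv.swap 1 2)
  have q3 := TS_perm3 (L := L) hp hf (Equiv.swap 0 1)
  have q4 := TS_perm3 (L := L) hp hf (finRotate 3)
  have q5 := TS_perm3 (L := L) hp hf (finRotate 3).symm
  have q6 := TS_perm3 (L := L) hp hf (Equiv.swap 0 2)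
  have e2 : (Equiv.swap 1 2 : Equiv.Perm (Fin 3)) 0 = 0 ∧ (Equiv.swap 1 2 : Equiv.Perm (Fin 3)) 1 = 2
    ∧ (Equiv.swap 1 2 : Equiv.Perm (Fin 3)) 2 = 1 := by decide
  have e3 : (Equiv.swap 0 1 : Equiv.Perm (Fin 3)) 0 = 1 ∧ (Equiv.swap 0 1 : Equiv.Perm (Fin 3)) 1 = 0
    ∧ (Equiv.swap 0 1 : Equiv.Perm (Fin 3)) 2 = 2 := by decide
  have e4 : finRotate 3 0 = 1 ∧ finRotate 3 1 = 2 ∧ finRotate 3 2 = 0 := by decide
  have e5 : (finRotate 3).symm 0 = 2 ∧ (finRotate 3).symm 1 = 0 ∧ (finRotate 3).symm 2 = 1 := by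
    decide
  have e6 : (Equiv.swap 0 2 : Equiv.Perm (Fin 3)) 0 = 2 ∧ (Equiv.swap 0 2 : Equiv.Perm (Fin 3)) 1 = 1
    ∧ (Equiv.swap 0 2 : Equiv.Perm (Fin 3)) 2 = 0 := by decide
  simp only [e2.1, e2.2.1, e2.2.2] at q2
  simp only [e3.1, e3.2.1, e3.2.2] at q3
  simp only [e4.1, e4.2.1, e4.2.2] at q4
  simp only [e5.1, e5.2.1, e5.2.2] at q5
  simp only [e6.1, e6.2.1, e6.2.2] at q6
  simp only [TS_add, TS_smul, TS_cell hf, q1, q2, q3, q4, q5, q6]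
  ring

/-- the kernel as a function of the table -/
noncomputable def KT (p : ℕ) (x : Fin 3 → Fin 3 → ℕ) : ℂ :=
  ((KK p (x 2 2) (x 0 0) (x 0 1) (x 1 0) (x 1 1) : ℝ) : ℂ)

lemma KK_zero {p c y11 y12 y21 y22 : ℝ} (h : ¬ (0 < p - (y11 + y12) ∧ 0 < p - (y21 + y22) ∧
    0 < p - (y11 + y21) ∧ 0 < p - (y12 + y22))) : KK p c y11 y12 y21 y22 = 0 := by
  unfold KK
  simp only []
  rw [if_neg h]

lemma KK_pos_imp {p c y11 y12 y21 y22 : ℕ} (h : KK p c y11 y12 y21 y22 ≠ 0) :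
    y11 + y12 < p ∧ y21 + y22 < p ∧ y11 + y21 < p ∧ y12 + y22 < p := by
  by_contra h1
  refine h (KK_zero fun h2 => h1 ?_)
  obtain ⟨a, b, c, d⟩ := h2
  refine ⟨?_, ?_, ?_, ?_⟩
  · have : ((y11 + y12 : ℕ) : ℝ) < p := by push_cast; linarith
    exact_mod_cast this
  · have : ((y21 + y22 : ℕ) : ℝ) < p := by push_cast; linarith
    exact_mod_cast this
  · have : ((y11 + y21 : ℕ) : ℝ) < p := by push_cast; linarith
    exact_mod_cast this
  · have : ((y12 + y22 : ℕ) : ℝ) < p := by push_cast; linarith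
    exact_mod_cast this

lemma row_rule (hI : IDEN) (x : Fin 3 → Fin 3 → ℕ) (hr : ∀ i, ∑ j, x i j = p)
    (hc : ∀ j, ∑ i, x i j = p) :
    (if conn p x then (1 : ℂ) else 0) = KT p x + KT p (fun i j => x i (Equiv.swap 1 2 j))
      + KT p (fun i j => x i (finRotate 3 j)) := by
  have e2 : (Equiv.swap 1 2 : Equiv.Perm (Fin 3)) 0 = 0 ∧ (Equiv.swap 1 2 : Equiv.Perm (Fin 3)) 1 = 2
    ∧ (Equiv.swap 1 2 : Equiv.Perm (Fin 3)) 2 = 1 := by decide
  have e4 : finRotate 3 0 = 1 ∧ finRotate 3 1 = 2 ∧ finRotate 3 2 = 0 := by decide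
  have r0 := hr 0
  have r1 := hr 1
  have r2 := hr 2
  have c0 := hc 0
  have c1 := hc 1
  have c2 := hc 2
  simp only [Fin.sum_univ_three] at r0 r1 r2 c0 c1 c2
  simp only [KT, e2.1, e2.2.1, e2.2.2, e4.1, e4.2.1, e4.2.2]
  rw [← Complex.ofReal_add, ← Complex.ofReal_add]
  by_cases h : conn p x
  · rw [if_pos h]
    have h1 := hI p (x 0 0) (x 0 1) (x 0 2) (x 1 0) (x 1 1) (x 1 2) (x 2 0) (x 2 1) (x 2 2)
      r0 r1 r2 c0 c1 c2 (h _ _) (h _ _) (h _ _) (h _ _) (h _ _) (h _ _) (h _ _) (h _ _) (h _ _)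
    rw [h1]
    simp
  · rw [if_neg h]
    have h1 : ¬ (x 0 0 + x 0 1 < p ∧ x 1 0 + x 1 1 < p ∧ x 0 0 + x 1 0 < p ∧ x 0 1 + x 1 1 < p) := by
      intro h2
      refine h fun i j => ?_
      fin_cases i <;> fin_cases j <;> simp only [Fin.zero_eta, Fin.mk_one, Fin.reduceFinMk] <;> omega
    have h2 : ¬ (x 0 0 + x 0 2 < p ∧ x 1 0 + x 1 2 < p ∧ x 0 0 + x 1 0 < p ∧ x 0 2 + x 1 2 < p) := by
      intro h2
      refine h fun i j => ?_
      fin_cases i <;> fin_cases j <;> simp only [Fin.zero_eta, Fin.mk_one, Fin.reduceFinMk] <;> omega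
    have h3 : ¬ (x 0 1 + x 0 2 < p ∧ x 1 1 + x 1 2 < p ∧ x 0 1 + x 1 1 < p ∧ x 0 2 + x 1 2 < p) := by
      intro h2
      refine h fun i j => ?_
      fin_cases i <;> fin_cases j <;> simp only [Fin.zero_eta, Fin.mk_one, Fin.reduceFinMk] <;> omega
    have k1 : KK p (x 2 2) (x 0 0) (x 0 1) (x 1 0) (x 1 1) = 0 := by
      by_contra hk; exact h1 (KK_pos_imp hk)
    have k2 : KK p (x 2 1) (x 0 0) (x 0 2) (x 1 0) (x 1 2) = 0 := by
      by_contra hk; exact h2 (KK_pos_imp hk)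
    have k3 : KK p (x 2 0) (x 0 1) (x 0 2) (x 1 1) (x 1 2) = 0 := by
      by_contra hk; exact h3 (KK_pos_imp hk)
    rw [k1, k2, k3]
    simp

lemma TS_row (hI : IDEN) (hf : ∀ m, dg m ≠ p → f m = 0) :
    TS 3 L f (fun x => if conn p x then 1 else 0) = 3 * TS 3 L f (KT p) := by
  rw [TS_congr hf (fun x hr hc => row_rule hI x hr hc)]
  have h1 := TS_perm (L := L) f 1 (Equiv.swap 1 2) (KT p)
  have h2 := TS_perm (L := L) f 1 (finRotate 3) (KT p)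
  simp only [Equiv.Perm.one_apply] at h1 h2
  simp only [TS_add, h1, h2]
  ring

end Pool.Agent.Hol.H9
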