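import Pool.Agent.Lib.MP_a60258_hol.H9.TabE

/-!
# The quadratic forms of the cut
-/

open MvPolynomial Finset

set_option linter.unusedSectionVars false
set_option linter.unusedSimpArgs false
set_option linter.unusedVariables false

namespace Pool.Agent.Hol.H9

variable {σ : Type} [Fintype σ] [DecidableEq σ]
variable {p L : ℕ} {f : (σ → ℕ) → ℂ}

/-- the half of the cut -/
noncomputable def lam (L : ℕ) (f : (σ → ℕ) → ℂ) (k r1 r2 : σ → ℕ) : ℂ :=
  ∑ x ∈ Bx σ L, ∑ y ∈ Bx σ L,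
    f (r1 + x) * f (r2 + y) * (starRingEnd ℂ) (f (x + y + k)) / (mf x * mf y)

/-- the quadratic form of a kernel -/
noncomputable def QQ (L : ℕ) (K : ℕ → ℕ → ℕ → ℕ → ℂ) (l : (σ → ℕ) → (σ → ℕ) → ℂ) : ℂ :=
  ∑ a ∈ Bx σ L, ∑ b ∈ Bx σ L, ∑ c ∈ Bx σ L, ∑ d ∈ Bx σ L,
    K (dg a) (dg b) (dg c) (dg d) * (l (a + b) (c + d) * (starRingEnd ℂ) (l (a + c) (b + d)))
      / (mf a * mf b * mf c * mf d)

lemma mf_real (m : σ → ℕ) : (starRingEnd ℂ) (mf m) = mf m := by
  unfold mf
  rw [map_prod]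
  exact prod_congr rfl fun s _ => by rw [map_natCast]

lemma lam_conj (L : ℕ) (f : (σ → ℕ) → ℂ) (k r1 r2 : σ → ℕ) :
    (starRingEnd ℂ) (lam L f k r1 r2) = ∑ z ∈ Bx σ L, ∑ w ∈ Bx σ L,
      (starRingEnd ℂ) (f (r1 + z)) * (starRingEnd ℂ) (f (r2 + w)) * f (z + w + k)
        / (mf z * mf w) := by
  unfold lam
  rw [map_sum]
  refine sum_congr rfl fun x _ => ?_
  rw [map_sum]
  refine sum_congr rfl fun y _ => ?_
  rw [map_div₀, map_mul, map_mul, map_mul, mf_real, mf_real, Complex.conj_conj]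

/-- the sum of the kernel over the tables, as a sum over the middle cell of quadratic forms -/
lemma TS_split (L : ℕ) (f : (σ → ℕ) → ℂ) (K : ℕ → ℕ → ℕ → ℕ → ℕ → ℂ) :
    TS 3 L f (fun x => K (x 2 2) (x 0 0) (x 0 1) (x 1 0) (x 1 1))
      = ∑ k ∈ Bx σ L, QQ L (K (dg k)) (lam L f k) / mf k := by
  rw [TS_three]
  refine sum_congr rfl fun k _ => ?_
  unfold QQ
  simp only [sum_div]
  refine sum_congr rfl fun a _ => sum_congr rfl fun b _ => sum_congr rfl fun c _ =>
    sum_congr rfl fun d _ => ?_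
  rw [lam_conj]
  unfold lam
  rw [sum_mul, mul_sum, sum_div, sum_div]
  refine sum_congr rfl fun x _ => ?_
  rw [sum_mul, mul_sum, sum_div, sum_div]
  refine sum_congr rfl fun y _ => ?_
  rw [mul_sum, mul_sum, sum_div, sum_div]
  refine sum_congr rfl fun z _ => ?_
  rw [mul_sum, mul_sum, sum_div, sum_div]
  refine sum_congr rfl fun w _ => ?_
  change K (dg k) (dg a) (dg b) (dg c) (dg d) * _ = _
  field_simp [mf_ne]

lemma lam_zero (hf : ∀ m, dg m ≠ p → f m = 0) {k r1 r2 : σ → ℕ} (h : dg r1 + dg r2 ≠ p + dg k) :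
    lam L f k r1 r2 = 0 := by
  unfold lam
  refine sum_eq_zero fun x _ => sum_eq_zero fun y _ => ?_
  by_cases h1 : dg (r1 + x) = p
  · by_cases h2 : dg (r2 + y) = p
    · rw [hf (x + y + k)]
      · simp
      · intro h3
        simp only [dg_add] at h1 h2 h3
        omega
    · rw [hf (r2 + y) h2]
      simp
  · rw [hf (r1 + x) h1]
    simp

lemma lam_big (hf : ∀ m, dg m ≠ p → f m = 0) {k r1 r2 : σ → ℕ} (h : p < dg k) :
    lam L f k r1 r2 = 0 := by
  unfold lam
  refine sum_eq_zero fun x _ => sum_eq_zero fun y _ => ?_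
  rw [hf (x + y + k)]
  · simp
  · simp only [dg_add]
    omega

/-- the quadratic form in words -/
lemma QQ_words (hCL : CL) {n : ℕ} (hL : n ≤ L) (K : ℕ → ℕ → ℕ → ℕ → ℂ)
    (l : (σ → ℕ) → (σ → ℕ) → ℂ) (hl : ∀ r1 r2, dg r1 + dg r2 ≠ n → l r1 r2 = 0) :
    ∑ v : Fin n → σ, ∑ w : Fin n → Fin 2, ∑ w' : Fin n → Fin 2,
      K (ov w w' 0 0) (ov w w' 0 1) (ov w w' 1 0) (ov w w' 1 1)
        * (l (cw v w 0) (cw v w 1) * (starRingEnd ℂ) (l (cw v w' 0) (cw v w' 1)))
      = (n.factorial : ℂ) * QQ L K l := by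
  have h1 := words_tables (σ := σ) hCL hL (κ := Fin 2)
    (fun β => K (dg (β 0 0)) (dg (β 0 1)) (dg (β 1 0)) (dg (β 1 1))
      * (l (∑ j, β 0 j) (∑ j, β 1 j) * (starRingEnd ℂ) (l (∑ i, β i 0) (∑ i, β i 1)))) (by
    intro β hβ
    rw [hl, zero_mul, mul_zero]
    rw [dg_sum, dg_sum]
    simpa only [Fin.sum_univ_two] using hβ)
  have h2 : QQ L K l = ∑ β ∈ Fintype.piFinset (fun _ : Fin 2 => Fintype.piFinset
      (fun _ : Fin 2 => Bx σ L)), K (dg (β 0 0)) (dg (β 0 1)) (dg (β 1 0)) (dg (β 1 1))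
      * (l (∑ j, β 0 j) (∑ j, β 1 j) * (starRingEnd ℂ) (l (∑ i, β i 0) (∑ i, β i 1)))
      / ∏ i, ∏ j, mf (β i j) := by
    have h3 : QQ L K l = ∑ x ∈ Bx σ L ×ˢ Bx σ L ×ˢ Bx σ L ×ˢ Bx σ L,
        (fun a b c d => K (dg a) (dg b) (dg c) (dg d)
          * (l (a + b) (c + d) * (starRingEnd ℂ) (l (a + c) (b + d)))
          / (mf a * mf b * mf c * mf d)) x.1 x.2.1 x.2.2.1 x.2.2.2 := by
      simp only [sum_product]
      rfl
    rw [h3]
    refine sum_nbij' (fun x => ![![x.1, x.2.1], ![x.2.2.1, x.2.2.2]])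
      (fun β => (β 0 0, β 0 1, β 1 0, β 1 1)) ?_ ?_ ?_ ?_ ?_
    · intro x hx
      simp only [mem_product] at hx
      simp only [Fintype.mem_piFinset]
      intro i j
      fin_cases i <;> fin_cases j <;> simp [hx]
    · intro β hβ
      simp only [Fintype.mem_piFinset] at hβ
      simp only [mem_product]
      exact ⟨hβ _ _, hβ _ _, hβ _ _, hβ _ _⟩
    · intro x _
      rfl
    · intro β _
      funext i j
      fin_cases i <;> fin_cases j <;> rfl
    · intro x _
      simp only [Fin.sum_univ_two, Fin.prod_univ_two, Matrix.cons_val_zero, Matrix.cons_val_one]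
      ring
  rw [h2, ← h1]
  refine sum_congr rfl fun v _ => sum_congr rfl fun w _ => sum_congr rfl fun w' _ => ?_
  simp only [row_tri, col_tri, dg_tri]
  rfl

/-- positivity of the quadratic forms -/
lemma QQ_nonneg (hCL : CL) (hKER : KER) (hL : 3 * p ≤ L) (hf : ∀ m, dg m ≠ p → f m = 0)
    (k : σ → ℕ) :
    0 ≤ (QQ L (fun a b c d => ((KK p (dg k) a b c d : ℝ) : ℂ)) (lam L f k)).re := by
  rcases lt_or_ge (dg k) p with hk | hk
  · have h1 := QQ_words hCL (n := p + dg k) (L := L) (by omega)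
      (fun a b c d => ((KK p (dg k) a b c d : ℝ) : ℂ)) (lam L f k)
      (fun r1 r2 h => lam_zero hf h)
    have h2 : 0 ≤ (∑ v : Fin (p + dg k) → σ, ∑ w : Fin (p + dg k) → Fin 2,
        ∑ w' : Fin (p + dg k) → Fin 2,
        ((KK p (dg k) (ov w w' 0 0) (ov w w' 0 1) (ov w w' 1 0) (ov w w' 1 1) : ℝ) : ℂ)
        * (lam L f k (cw v w 0) (cw v w 1)
          * (starRingEnd ℂ) (lam L f k (cw v w' 0) (cw v w' 1)))).re := by
      rw [Complex.re_sum]
      refine sum_nonneg fun v _ => ?_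
      have h3 := hKER p (dg k) hk (fun w => lam L f k (cw v w 0) (cw v w 1))
      simp only [mul_assoc] at h3
      exact h3
    rw [h1] at h2
    have h4 : (((p + dg k).factorial : ℂ) * QQ L (fun a b c d => ((KK p (dg k) a b c d : ℝ) : ℂ))
      (lam L f k)).re = ((p + dg k).factorial : ℝ)
        * (QQ L (fun a b c d => ((KK p (dg k) a b c d : ℝ) : ℂ)) (lam L f k)).re := by
      rw [← Complex.ofReal_natCast, Complex.re_ofReal_mul]
    rw [h4] at h2
    have h5 : (0 : ℝ) < ((p + dg k).factorial : ℝ) := by exact_mod_cast Nat.factorial_pos _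
    exact nonneg_of_mul_nonneg_right h2 h5
  · have h1 : QQ L (fun a b c d => ((KK p (dg k) a b c d : ℝ) : ℂ)) (lam L f k) = 0 := by
      unfold QQ
      refine sum_eq_zero fun a _ => sum_eq_zero fun b _ => sum_eq_zero fun c _ =>
        sum_eq_zero fun d _ => ?_
      rcases eq_or_lt_of_le hk with hk | hk
      · by_cases h : dg (a + b) + dg (c + d) = p + dg k
        · have h2 : KK p (dg k) (dg a) (dg b) (dg c) (dg d) = 0 := by
            by_contra h3
            have h4 := KK_pos_imp h3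
            simp only [dg_add] at h
            omega
          simp [h2]
        · rw [lam_zero hf h]
          simp
      · rw [lam_big hf hk]
        simp
    rw [h1]
    simp

end Pool.Agent.Hol.H9
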