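import Pool.Agent.Lib.MP_a60258_hol.H9.TabF

/-!
# The block `c = 0` and the Cauchy-Schwarz inequality
-/

open MvPolynomial Finset

set_option linter.unusedSectionVars false
set_option linter.unusedSimpArgs false
set_option linter.unusedVariables false

namespace Pool.Agent.Hol.H9

variable {σ : Type} [Fintype σ] [DecidableEq σ]
variable {p L : ℕ} {f : (σ → ℕ) → ℂ}

/-- the half of the cut, both vertices having free legs -/
noncomputable def l1 (L : ℕ) (f : (σ → ℕ) → ℂ) (r1 r2 : σ → ℕ) : ℂ :=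
  if 0 < dg r1 ∧ 0 < dg r2 then lam L f 0 r1 r2 else 0

lemma l1_zero (hf : ∀ m, dg m ≠ p → f m = 0) {r1 r2 : σ → ℕ} (h : dg r1 + dg r2 ≠ p) :
    l1 L f r1 r2 = 0 := by
  unfold l1
  rw [lam_zero hf (by rw [dg_zero]; exact h)]
  simp

lemma QQ_zero (hKZ : KZERO) (hf : ∀ m, dg m ≠ p → f m = 0) :
    QQ L (fun a b c d => ((KK p (dg (0 : σ → ℕ)) a b c d : ℝ) : ℂ)) (lam L f 0)
      = QQ L (fun _ _ _ _ => 1) (l1 L f) := by
  unfold QQ
  refine sum_congr rfl fun a _ => sum_congr rfl fun b _ => sum_congr rfl fun c _ =>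
    sum_congr rfl fun d _ => ?_
  congr 1
  rw [dg_zero, Nat.cast_zero]
  change ((KK p 0 (dg a) (dg b) (dg c) (dg d) : ℝ) : ℂ) * _ = 1 * _
  by_cases h : dg (a + b) + dg (c + d) = p
  · have h' := h
    simp only [dg_add] at h'
    unfold l1
    by_cases h2 : (0 < dg (a + b) ∧ 0 < dg (c + d)) ∧ (0 < dg (a + c) ∧ 0 < dg (b + d))
    · rw [if_pos h2.1, if_pos h2.2]
      simp only [dg_add] at h2
      rw [hKZ p (dg a) (dg b) (dg c) (dg d) (by omega) h2.1.1 h2.1.2 h2.2.1 h2.2.2]
      simp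
    · have h3 : KK p 0 (dg a) (dg b) (dg c) (dg d) = 0 := by
        by_contra h4
        have h5 := KK_pos_imp (p := p) (c := 0) (y11 := dg a) (y12 := dg b) (y21 := dg c)
          (y22 := dg d) (by rw [Nat.cast_zero]; exact h4)
        simp only [dg_add] at h2
        refine h2 ?_
        omega
      rw [h3]
      simp only [not_and_or] at h2
      rcases h2 with h2 | h2
      · rw [if_neg (by rw [not_and_or]; exact h2)]
        simp
      · rw [if_neg (c := 0 < dg (a + c) ∧ 0 < dg (b + d)) (by rw [not_and_or]; exact h2)]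
        simp
  · rw [lam_zero hf (by rw [dg_zero]; exact h), l1_zero hf h]
    simp

/-- splitting a word in pairs -/
def pairE (σ κ : Type) (N : ℕ) : (Fin N → σ × κ) ≃ (Fin N → σ) × (Fin N → κ) where
  toFun u := (fun n => (u n).1, fun n => (u n).2)
  invFun x := fun n => (x.1 n, x.2 n)
  left_inv _ := rfl
  right_inv _ := rfl

lemma words_pairs (hCL : CL) {κ : Type} [Fintype κ] [DecidableEq κ] {N L : ℕ} (hL : N ≤ L)
    (Ψ : (κ → σ → ℕ) → ℂ) (hΨ : ∀ β, ∑ i, dg (β i) ≠ N → Ψ β = 0) :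
    ∑ v : Fin N → σ, ∑ w : Fin N → κ, Ψ (fun i => cw v w i)
      = (N.factorial : ℂ) * ∑ β ∈ Fintype.piFinset (fun _ : κ => Bx σ L), Ψ β / ∏ i, mf (β i) := by
  have h1 := hCL (σ × κ) N L hL (fun m => Ψ (fun i s => m (s, i))) (by
    intro m hm
    refine hΨ _ fun h => hm ?_
    rw [← h]
    simp only [dg, Fintype.sum_prod_type]
    rw [Finset.sum_comm])
  have h2 : ∑ v : Fin N → σ, ∑ w : Fin N → κ, Ψ (fun i => cw v w i)
      = ∑ u : Fin N → σ × κ, Ψ (fun i s => cnt u (s, i)) := by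
    rw [← Equiv.sum_comp (pairE σ κ N).symm]
    rw [Fintype.sum_prod_type]
    refine sum_congr rfl fun v _ => sum_congr rfl fun w _ => ?_
    congr 1
    funext i s
    simp only [cw, cnt, pairE, Equiv.coe_fn_symm_mk, Prod.mk.injEq]
  rw [h2, h1]
  congr 1
  refine sum_nbij' (fun m i s => m (s, i)) (fun β t => β t.2 t.1) ?_ ?_ ?_ ?_ ?_
  · intro m hm
    simp only [Bx, Fintype.mem_piFinset] at hm ⊢
    exact fun i s => hm _
  · intro β hβ
    simp only [Bx, Fintype.mem_piFinset] at hβ ⊢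
    exact fun t => hβ _ _
  · intro m _
    rfl
  · intro β _
    rfl
  · intro m _
    congr 1
    simp only [mf, Fintype.prod_prod_type]
    rw [Finset.prod_comm]

lemma cw_add {N : ℕ} (v : Fin N → σ) (w : Fin N → Fin 2) : cw v w 0 + cw v w 1 = cnt v := by
  funext s
  simp only [Pi.add_apply, cw, cnt]
  rw [← card_union_of_disjoint]
  · congr 1
    ext n
    simp only [mem_union, mem_filter, mem_univ, true_and]
    have : w n = 0 ∨ w n = 1 := by
      rcases Fin.exists_fin_two.mp ⟨w n, rfl⟩ with h | h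
      · exact Or.inl h
      · exact Or.inr h
    tauto
  · rw [disjoint_filter]
    intro n _ h1 h2
    have := h1.2.symm.trans h2.2
    exact absurd this (by decide)

/-- the connected `2 × 2` tables -/
noncomputable def C2 (L : ℕ) (f : (σ → ℕ) → ℂ) : ℂ :=
  TS 2 L f (fun x => if 0 < x 0 0 ∧ 0 < x 1 0 then 1 else 0)

lemma C2_eq (hp : 1 ≤ p) (hf : ∀ m, dg m ≠ p → f m = 0) :
    C2 L f = TS 2 L f (fun _ => 1) - 2 * A1 L f ^ 2 := by
  have h1 := TS_two_diag L f
  have h2 := TS_perm (L := L) f 1 (Equiv.swap 0 1)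
    (fun x : Fin 2 → Fin 2 → ℕ => if x 0 1 = 0 ∧ x 1 0 = 0 then (1 : ℂ) else 0)
  rw [h1] at h2
  simp only [Equiv.Perm.one_apply, Equiv.swap_apply_left, Equiv.swap_apply_right] at h2
  have h3 : TS 2 L f (fun _ => 1) = TS 2 L f (fun x => (if 0 < x 0 0 ∧ 0 < x 1 0 then 1 else 0)
      + (if x 0 1 = 0 ∧ x 1 0 = 0 then 1 else 0) + (if x 0 0 = 0 ∧ x 1 1 = 0 then 1 else 0)) := by
    refine TS_congr hf fun x hr hc => ?_
    have r0 := hr 0
    have r1 := hr 1
    have c0 := hc 0
    have c1 := hc 1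
    simp only [Fin.sum_univ_two] at r0 r1 c0 c1
    by_cases hx : x 0 0 = 0
    · rw [if_neg (by omega), if_neg (by omega), if_pos (by omega)]
      simp
    · by_cases hy : x 1 0 = 0
      · rw [if_neg (by omega), if_pos (by omega), if_neg (by omega)]
        simp
      · rw [if_pos (by omega), if_neg (by omega), if_neg (by omega)]
        simp
  rw [h3]
  simp only [TS_add]
  rw [h1, h2]
  unfold C2
  ring

/-- pairing of the half with `f` -/
lemma pair_eq (hCL : CL) (hL : p ≤ L) (hf : ∀ m, dg m ≠ p → f m = 0) :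
    ∑ v : Fin p → σ, (∑ w : Fin p → Fin 2, l1 L f (cw v w 0) (cw v w 1))
      * (starRingEnd ℂ) (f (cnt v)) = (p.factorial : ℂ) * C2 L f := by
  have h1 := words_pairs (σ := σ) hCL hL (κ := Fin 2)
    (fun β => l1 L f (β 0) (β 1) * (starRingEnd ℂ) (f (β 0 + β 1))) (by
    intro β hβ
    simp only [Fin.sum_univ_two] at hβ
    rw [l1_zero hf hβ, zero_mul])
  have h2 : ∑ v : Fin p → σ, (∑ w : Fin p → Fin 2, l1 L f (cw v w 0) (cw v w 1))
      * (starRingEnd ℂ) (f (cnt v)) = ∑ v : Fin p → σ, ∑ w : Fin p → Fin 2,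
      (fun β : Fin 2 → σ → ℕ => l1 L f (β 0) (β 1) * (starRingEnd ℂ) (f (β 0 + β 1)))
        (fun i => cw v w i) := by
    refine sum_congr rfl fun v _ => ?_
    rw [sum_mul]
    refine sum_congr rfl fun w _ => ?_
    simp only [cw_add]
  rw [h2, h1]
  congr 1
  have h3 : ∑ β ∈ Fintype.piFinset (fun _ : Fin 2 => Bx σ L),
      l1 L f (β 0) (β 1) * (starRingEnd ℂ) (f (β 0 + β 1)) / ∏ i, mf (β i)
      = ∑ a ∈ Bx σ L, ∑ c ∈ Bx σ L, l1 L f a c * (starRingEnd ℂ) (f (a + c)) / (mf a * mf c) := by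
    rw [← sum_product' (f := fun a c => l1 L f a c * (starRingEnd ℂ) (f (a + c)) / (mf a * mf c))]
    refine sum_nbij' (fun β => (β 0, β 1)) (fun x => ![x.1, x.2]) ?_ ?_ ?_ ?_ ?_
    · intro β hβ
      simp only [Fintype.mem_piFinset] at hβ
      simp only [mem_product]
      exact ⟨hβ _, hβ _⟩
    · intro x hx
      simp only [mem_product] at hx
      simp only [Fintype.mem_piFinset]
      intro i
      fin_cases i <;> simp [hx]
    · intro β _
      funext i
      fin_cases i <;> rfl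
    · intro x _
      rfl
    · intro β _
      simp only [Fin.prod_univ_two]
  rw [h3]
  unfold C2
  rw [TS_two]
  refine sum_congr rfl fun a _ => ?_
  rw [sum_comm]
  refine sum_congr rfl fun c _ => ?_
  unfold l1
  by_cases h : 0 < dg a ∧ 0 < dg c
  · rw [if_pos h]
    unfold lam
    rw [sum_mul, sum_div]
    refine sum_congr rfl fun b _ => ?_
    rw [sum_mul, sum_div]
    refine sum_congr rfl fun d _ => ?_
    rw [if_pos (by simpa using h)]
    rw [add_zero]
    field_simp [mf_ne]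
  · rw [if_neg h]
    simp only [zero_mul, zero_div]
    symm
    refine sum_eq_zero fun b _ => sum_eq_zero fun d _ => ?_
    rw [if_neg (by simpa using h), zero_mul]

end Pool.Agent.Hol.H9
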